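import Pool.Agent.H608.Ge.Lead
import Pool.Agent.H608.Ge.Jn
import Mathlib

/-!
# Sums over the integers with very few changes of sign

For a set `E` of positive integers let `ε_n = -1` for `n ∈ E`, `ε_n = 1` otherwise, and for a function `φ` which is
analytic at zero with `φ(0) = φ'(0) = 0` let `S_E(φ) = ∑ φ(1 / (ε_n n))`, over the positive integers `n`. For even
`φ` this does not depend on `E` (so all even zeta values, the sine function, `π` are what they are). The sums
`S_E(w ^ s)` are zeta values for `E = ∅`. There are sets `E` with at most `C log log log K` elements up to `K` such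
that the numbers `S_E(φ_0), S_E(φ_1), …`, for functions `φ_i` with linearly independent odd parts, for instance
`S_E(w ^ 3), S_E(w ^ 5), …`, are algebraically independent over any given countable ring `R` of real numbers (for
instance over the field generated by `π`, `ζ(3)` and the real algebraic numbers), and all values of nonconstant
polynomials and given entire functions at these numbers are normal in every integer base, even jointly.
-/

set_option autoImplicit false

namespace Pool.Agent.Results.MP_4f096c_nt.FewSignChanges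

open Finset Filter Topology Metric
open Pool.Agent.H608.Sp Pool.Agent.H608.Ge

/-- the digit of `x` in base `b` at position `i` after the point -/
noncomputable def digit (b : ℕ) (x : ℝ) (i : ℕ) : ℤ := ⌊x * (b : ℝ) ^ i⌋ % (b : ℤ)

open Classical in
/-- the tuple `x` is jointly normal in base `b`: every digit matrix with `n` rows and `m` columns
occurs along the positions with limiting frequency `b ^ (-(m * n))` -/
def JointlyNormal (b : ℕ) {n : ℕ} (x : Fin n → ℝ) : Prop :=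
  ∀ m : ℕ, 1 ≤ m → ∀ D : Fin n → Fin m → Fin b,
    Tendsto (fun N : ℕ => (((Icc 1 N).filter fun i : ℕ =>
      ∀ (j : Fin n) (t : Fin m), digit b (x j) (i + (t : ℕ)) = ((D j t : ℕ) : ℤ)).card : ℝ) / (N : ℝ))
      atTop (𝓝 (1 / (b : ℝ) ^ (m * n)))

/-- `A` has at least `H exp (- (log H) ^ (2 / 5))` elements in `[H, 2 H)`, for all large `H` -/
def NotTooSparse (A : Set ℕ) : Prop :=
  ∀ᶠ H : ℕ in atTop, H * Real.exp (-(Real.log H) ^ (2 / 5 : ℝ)) ≤
    (({k : ℕ | k ∈ A ∧ H ≤ k ∧ k < 2 * H}.ncard : ℕ) : ℝ)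

open Classical in
/-- the signs: `-1` on `E`, `1` elsewhere -/
noncomputable def sign (E : Set ℕ) (n : ℕ) : ℝ := if n ∈ E then -1 else 1

/-- the sum of the values of `φ` at the numbers `1 / (ε_n n)`, over the positive integers `n` -/
noncomputable def S (E : Set ℕ) (φ : ℂ → ℂ) : ℝ :=
  ∑' n : ℕ, (φ ((1 / (sign E (n + 1) * ((n : ℝ) + 1)) : ℝ) : ℂ)).re

/-- the functions which are allowed: analytic at zero, of order at least two, real at real points -/
structure Good (φ : ℂ → ℂ) : Prop where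
  an : AnalyticAt ℂ φ 0
  z0 : φ 0 = 0
  d0 : deriv φ 0 = 0
  re : ∀ x : ℝ, (φ (x : ℂ)).im = 0

lemma jn_of_nt (b : ℕ) {n : ℕ} (x : Fin n → ℝ) (h : Pool.Agent.W206.ND.NT b x) :
    JointlyNormal b x := by
  intro m hm D
  have h1 := h m hm D
  refine h1.congr fun N => ?_
  congr 2

lemma S_even (E : Set ℕ) {φ : ℂ → ℂ} (h : ∀ w, φ (-w) = φ w) : S E φ = S ∅ φ := by
  unfold S
  apply tsum_congr
  intro n
  unfold sign
  rw [if_neg (Set.notMem_empty _)]
  split_ifs
  · have h1 : ((1 / (-1 * ((n : ℝ) + 1)) : ℝ) : ℂ) = -((1 / (1 * ((n : ℝ) + 1)) : ℝ) : ℂ) := by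
      rw [← Complex.ofReal_neg]
      congr 1
      rw [neg_one_mul, one_mul, div_neg]
    rw [h1, h]
  · rfl

lemma S_pow {s : ℕ} (hs : 2 ≤ s) : ((S ∅ fun w => w ^ s : ℝ) : ℂ) = riemannZeta s := by
  have e1 : (S ∅ fun w => w ^ s) = ∑' n : ℕ, 1 / ((n : ℝ) + 1) ^ s := by
    unfold S
    apply tsum_congr
    intro n
    unfold sign
    rw [if_neg (Set.notMem_empty _), one_mul]
    show ((((1 / ((n : ℝ) + 1) : ℝ)) : ℂ) ^ s).re = _
    rw [← Complex.ofReal_pow, Complex.ofReal_re, one_div_pow]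
  rw [e1, zeta_nat_eq_tsum_of_gt_one (by omega), Complex.ofReal_tsum]
  have h1 : Summable fun n : ℕ => 1 / (n : ℂ) ^ s := by
    have h2 := Real.summable_one_div_nat_pow.2 (show 1 < s by omega)
    have h3 := Complex.ofRealCLM.summable h2
    refine h3.congr fun n => ?_
    simp
  rw [h1.tsum_eq_zero_add]
  rw [Nat.cast_zero, zero_pow (by omega), div_zero, zero_add]
  apply tsum_congr
  intro n
  push_cast
  rfl

lemma good_pow {s : ℕ} (hs : 2 ≤ s) : Good fun w => w ^ s where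
  an := analyticAt_id.pow s
  z0 := zero_pow (by omega)
  d0 := by
    rw [deriv_pow_field, zero_pow (by omega), mul_zero]
  re x := by
    rw [← Complex.ofReal_pow, Complex.ofReal_im]

lemma Good.bound {φ : ℂ → ℂ} (h : Good φ) : φ =O[𝓝 0] fun w => w ^ 2 := by
  obtain ⟨p, hp⟩ := h.an
  have h1 := hp.isBigO_sub_partialSum_pow 2
  have h2 : ∀ y : ℂ, p.partialSum 2 y = 0 := by
    intro y
    unfold FormalMultilinearSeries.partialSum
    rw [sum_range_succ, sum_range_one, hp.coeff_zero, h.z0, zero_add]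
    have h3 := hp.deriv
    rw [h.d0] at h3
    rw [p.apply_eq_pow_smul_coeff]
    have h4 : p.coeff 1 = 0 := h3.symm
    rw [h4, smul_zero]
  simp only [zero_add, h2, sub_zero] at h1
  refine h1.trans (Asymptotics.isBigO_of_le _ fun w => ?_)
  rw [norm_pow, norm_norm, norm_pow]

/-- the values of a good function at `± 1 / k` are summable -/
lemma Good.summable {φ : ℂ → ℂ} (h : Good φ) (σ : ℕ → ℝ) (hσ : ∀ k, |σ k| = 1) :
    Summable fun k : ℕ => (φ ((1 / (σ k * (k : ℝ)) : ℝ) : ℂ)).re := by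
  obtain ⟨c, hc⟩ := h.bound.bound
  have h2 : Tendsto (fun k : ℕ => ((1 / (σ k * (k : ℝ)) : ℝ) : ℂ)) atTop (𝓝 0) := by
    rw [tendsto_zero_iff_norm_tendsto_zero]
    refine tendsto_one_div_atTop_nhds_zero_nat.congr fun k => ?_
    rw [Complex.norm_real, Real.norm_eq_abs, abs_div, abs_mul, hσ, one_mul, abs_one, Nat.abs_cast]
  have h3 := h2.eventually hc
  apply summable_of_isBigO_nat (Real.summable_one_div_nat_pow.2 one_lt_two)
  apply Asymptotics.IsBigO.of_bound c
  filter_upwards [h3] with k hk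
  refine (Complex.abs_re_le_norm _).trans (hk.trans (le_of_eq ?_))
  rw [norm_pow, Complex.norm_real, Real.norm_eq_abs, abs_div, abs_mul, hσ, one_mul, abs_one, Nat.abs_cast,
    Real.norm_eq_abs, abs_of_nonneg (by positivity), one_div_pow]

/-- the odd part -/
noncomputable def odd (φ : ℂ → ℂ) (w : ℂ) : ℂ := φ w - φ (-w)

/-- the series of the changes -/
noncomputable def ser (φ : ℂ → ℂ) (h : Good φ) : Ser where
  x := S ∅ φ
  τ k := (odd φ ((1 / (k : ℝ) : ℝ) : ℂ)).re
  g := odd φ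
  gd := by
    have h1 := Complex.analyticAt_iff_eventually_differentiableAt.1 h.an
    have h2 : Tendsto (fun w : ℂ => -w) (𝓝 0) (𝓝 0) := by
      have := (continuous_neg (G := ℂ)).tendsto 0
      rwa [neg_zero] at this
    filter_upwards [h1, h2.eventually h1] with w hw hw'
    unfold odd
    exact hw.sub (hw'.comp w differentiable_neg.differentiableAt)
  g0 := by
    unfold odd
    rw [neg_zero, sub_self]
  rep := by
    filter_upwards with k
    have h1 : (odd φ ((1 / (k : ℝ) : ℝ) : ℂ)).im = 0 := by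
      unfold odd
      rw [Complex.sub_im, h.re, ← Complex.ofReal_neg, h.re, sub_zero]
    have h2 : odd φ ((1 / (k : ℝ) : ℝ) : ℂ) = odd φ (1 / (k : ℂ)) := by
      push_cast
      rfl
    rw [← h2]
    exact Complex.ext (Complex.ofReal_re _) (by rw [Complex.ofReal_im, h1])

open Classical in
lemma limit_S {φ : ℂ → ℂ} (h : Good φ) {E : Set ℕ} (h0 : 0 ∉ E) :
    Tendsto (fun N : ℕ => (ser φ h).x - ∑ k ∈ (range N).filter (· ∈ E), (ser φ h).τ k) atTop (𝓝 (S E φ)) := by
  have hs1 : ∀ (F : Set ℕ), Summable fun n : ℕ => (φ ((1 / (sign F (n + 1) * ((n : ℝ) + 1)) : ℝ) : ℂ)).re := by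
    intro F
    have h1 := (summable_nat_add_iff 1).2 (h.summable (sign F) fun k => by
      unfold sign
      split_ifs
      · rw [abs_neg, abs_one]
      · exact abs_one)
    refine h1.congr fun n => ?_
    push_cast
    rfl
  obtain ⟨g, hg⟩ : ∃ g : ℕ → ℝ, g = fun k => if k ∈ E then (ser φ h).τ k else 0 := ⟨_, rfl⟩
  have hg0 : g 0 = 0 := by
    rw [hg]
    simp only
    rw [if_neg h0]
  have hg1 : ∀ n, g (n + 1) = (φ ((1 / (sign ∅ (n + 1) * ((n : ℝ) + 1)) : ℝ) : ℂ)).re -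
      (φ ((1 / (sign E (n + 1) * ((n : ℝ) + 1)) : ℝ) : ℂ)).re := by
    intro n
    rw [hg]
    simp only
    have e1 : sign ∅ (n + 1) = 1 := if_neg (Set.notMem_empty _)
    rw [e1]
    by_cases hE : n + 1 ∈ E
    · have e2 : sign E (n + 1) = -1 := if_pos hE
      rw [if_pos hE, e2]
      show (odd φ ((1 / ((n + 1 : ℕ) : ℝ) : ℝ) : ℂ)).re = _
      unfold odd
      rw [Complex.sub_re, ← Complex.ofReal_neg]
      push_cast
      rw [one_mul]
      congr 3
      rw [neg_one_mul, div_neg]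
    · have e2 : sign E (n + 1) = 1 := if_neg hE
      rw [if_neg hE, e2, sub_self]
  have hgs : Summable g := by
    rw [← summable_nat_add_iff 1]
    exact ((hs1 ∅).sub (hs1 E)).congr fun n => (hg1 n).symm
  have e1 : S E φ = S ∅ φ - ∑' k, g k := by
    rw [hgs.tsum_eq_zero_add, hg0, zero_add]
    simp only [hg1]
    rw [(hs1 ∅).tsum_sub (hs1 E)]
    unfold S
    ring
  rw [e1]
  apply Tendsto.const_sub
  refine hgs.hasSum.tendsto_sum_nat.congr fun N => ?_
  rw [hg, sum_filter]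

/-- the odd powers are independent -/
lemma odd_powers (t : ℕ) (c : Fin t → ℝ) (hc : c ≠ 0) :
    ¬ ∀ᶠ w in 𝓝 (0 : ℂ), ∑ j, (c j : ℂ) * odd (fun w => w ^ (2 * (j : ℕ) + 3)) w = 0 := by
  have h1 : LinInd fun j : Fin t => ser (fun w => w ^ (2 * (j : ℕ) + 3)) (good_pow (by omega)) :=
    linInd_of_lead (m := fun j => 2 * (j : ℕ) + 3) (a := fun _ => 2)
      (fun i j hij => by
        have : (i : ℕ) < j := hij
        simp only
        omega) (fun _ => two_ne_zero) fun j => by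
      have h2 : ∀ w : ℂ, (ser (fun w => w ^ (2 * (j : ℕ) + 3)) (good_pow (by omega))).g w -
          w ^ (2 * (j : ℕ) + 3) * ((2 : ℝ) : ℂ) = 0 := by
        intro w
        show w ^ (2 * (j : ℕ) + 3) - (-w) ^ (2 * (j : ℕ) + 3) - w ^ (2 * (j : ℕ) + 3) * ((2 : ℝ) : ℂ) = 0
        rw [Odd.neg_pow ⟨(j : ℕ) + 1, by ring⟩]
        push_cast
        ring
      simp only [h2]
      exact Asymptotics.isLittleO_zero _ _
  exact h1 c hc

open Classical in
theorem result :
    -- the sums of even functions do not depend on the signs; without changes of sign the powers give zeta values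
    (∀ (E : Set ℕ) (φ : ℂ → ℂ), (∀ w, φ (-w) = φ w) → S E φ = S ∅ φ) ∧
    (∀ s : ℕ, 2 ≤ s → ((S ∅ fun w => w ^ s : ℝ) : ℂ) = riemannZeta s) ∧
    -- an example of an admissible sequence: the odd powers
    ((∀ i : ℕ, Good fun w => w ^ (2 * i + 3)) ∧
      ∀ (t : ℕ) (c : Fin t → ℝ), c ≠ 0 →
        ¬ ∀ᶠ w in 𝓝 (0 : ℂ), ∑ j, (c j : ℂ) * odd (fun w => w ^ (2 * (j : ℕ) + 3)) w = 0) ∧
    -- few changes of sign
    ∃ C : ℝ, 0 < C ∧ ∀ φ : ℕ → ℂ → ℂ, (∀ i, Good (φ i)) →
      (∀ (t : ℕ) (c : Fin t → ℝ), c ≠ 0 → ¬ ∀ᶠ w in 𝓝 (0 : ℂ), ∑ j, (c j : ℂ) * odd (φ j) w = 0) →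
      ∀ A : Set ℕ, NotTooSparse A → ∀ (M : ℕ) (R : Subring ℝ), Countable R →
      ∀ 𝓕 : ∀ t : ℕ, Set ((Fin t → ℂ) → ℂ), (∀ t, (𝓕 t).Countable) →
      (∀ t, ∀ f ∈ 𝓕 t, AnalyticOnNhd ℂ f Set.univ ∧ ∀ a : Fin t → ℝ, (f fun i => (a i : ℂ)).im = 0) →
      ∃ E : Set ℕ, E ⊆ A ∧ (∀ m ∈ E, 1 ≤ m ∧ M ≤ m) ∧
        (∀ K : ℕ, 16 ≤ K → (({m : ℕ | m ∈ E ∧ m ≤ K}.ncard : ℕ) : ℝ) ≤
          C * Real.log (Real.log (Real.log K))) ∧
        AlgebraicIndependent R (fun i : ℕ => S E (φ i)) ∧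
        (∀ (n : ℕ) (P : Fin n → MvPolynomial ℕ R),
          (∀ v : Fin n → ℤ, v ≠ 0 → ∀ c, ∑ j, v j • P j ≠ MvPolynomial.C c) →
          ∀ b : ℕ, 2 ≤ b → JointlyNormal b fun j => MvPolynomial.aeval (fun i : ℕ => S E (φ i)) (P j)) ∧
        ∀ (t n : ℕ) (f : Fin n → (Fin t → ℂ) → ℂ), (∀ j, f j ∈ 𝓕 t) →
          (∀ v : Fin n → ℤ, v ≠ 0 → ¬ ∃ c : ℂ, ∀ w, ∑ j, (v j : ℂ) * f j w = c) →
          ∀ b : ℕ, 2 ≤ b → JointlyNormal b fun j => (f j fun i => ((S E (φ i) : ℝ) : ℂ)).re := by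
  refine ⟨fun E φ h => S_even E h, fun s hs => S_pow hs, ⟨fun i => good_pow (by omega), odd_powers⟩, ?_⟩
  obtain ⟨C, hC, hmain⟩ := linAll
  refine ⟨C, hC, fun φ hφ hind A hA M R hR 𝓕 hF hF' => ?_⟩
  have := fun t => countable_mvN (n := t) R
  obtain ⟨E, z, _, hEA, hEK, hl, _, hfreq, hNT⟩ := hmain (fun i => ser (φ i) (hφ i)) hind
    A hA M (fun t => 𝓕 t ∪ Set.range (polN R)) (fun t => (hF t).union (Set.countable_range _))
    (by
      rintro t f (hf | ⟨P, rfl⟩)
      · exact (hF' t f hf).1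
      · exact polN_analytic R P _)
    (by
      rintro t f (hf | ⟨P, rfl⟩)
      · exact (hF' t f hf).2
      · intro a
        rw [polN_real, Complex.ofReal_im]) R hR
  have h0E : 0 ∉ E := fun h => by
    have := (hEA 0 h).2.2
    omega
  have hz : ∀ i, z i = S E (φ i) := fun i => tendsto_nhds_unique (hl i) (limit_S (hφ i) h0E)
  have hP : ∀ P : MvPolynomial ℕ R, (∀ c, P ≠ MvPolynomial.C c) → ∀ b : ℕ, 2 ≤ b →
      Freq b (ev R (fun i : ℕ => S E (φ i)) P) := by
    intro P hP b hb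
    obtain ⟨t, Q, hQ⟩ := exists_fin R fun _ : Fin 1 => P
    have h1 := hfreq t (polN R (Q 0)) (Or.inr ⟨_, rfl⟩) (fun h => by
      obtain ⟨c, hc⟩ := h
      obtain ⟨c, hc⟩ := polN_const R (Q 0) (x := fun _ => 0) one_pos ⟨c, fun w _ => hc w⟩
      apply hP c
      rw [← hQ 0, hc]
      exact MvPolynomial.rename_C _ _) b hb
    have h2 : polN R (Q 0) (rp fun i : Fin t => z i) = ((ev R (fun i : ℕ => S E (φ i)) P : ℝ) : ℂ) := by
      rw [polN_real]
      congr 1
      rw [← ev_eq_aeval, ← hQ 0, MvPolynomial.aeval_rename]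
      congr 2
      funext i
      simp only [Function.comp]
      rw [hz]
    rw [h2, Complex.ofReal_re] at h1
    exact h1
  refine ⟨E, fun k hk => (hEA k hk).1, fun k hk => ⟨(hEA k hk).2.2, (hEA k hk).2.1⟩, hEK, algInd_of_freq R _ hP,
    fun n P hP' b hb => jn_of_nt b _ (nt_of_poly R _ hP P hP' b hb), ?_⟩
  intro t n f hf hnc b hb
  apply jn_of_nt
  have h1 := hNT t n f (fun j => Or.inl (hf j)) hnc b hb
  have h2 : (fun i : Fin t => ((S E (φ i) : ℝ) : ℂ)) = rp fun i : Fin t => z i := by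
    funext i
    show ((S E (φ i) : ℝ) : ℂ) = ((z i : ℝ) : ℂ)
    rw [hz]
  rw [h2]
  exact h1

end Pool.Agent.Results.MP_4f096c_nt.FewSignChanges
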